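import Pool.Agent.H.MP_5011cf_an.B

set_option autoImplicit false
open Filter Topology Metric Set Complex
open Pool.Agent.H.MP_5011cf_an

namespace Pool.Agent.H.MP_70d5b9_an

theorem clog {X : Type} [NormedAddCommGroup X] [NormedSpace ℝ X] {K : Set X} (hK : Convex ℝ K)
    {a : X} (ha : a ∈ K) {g : X → ℂ} (hg : ContinuousOn g K) (h0 : ∀ x ∈ K, g x ≠ 0) :
    ∃ G : X → ℂ, ContinuousOn G K ∧ ∀ x ∈ K, exp (G x) = g x := by
  classical
  have := hK.contractibleSpace ⟨a, ha⟩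
  have := hK.locallyPathConnectedSpace
  obtain ⟨f, ⟨-, hf⟩, -⟩ := isCoveringMapOn_exp.existsUnique_continuousMap_lifts
    (A := K) ⟨K.domRestrict g, continuousOn_iff_continuous_domRestrict.mp hg⟩ (a₀ := ⟨a, ha⟩)
    (exp_log (h0 a ha)) fun x => h0 x x.2
  refine ⟨fun z => if hz : z ∈ K then f ⟨z, hz⟩ else 0, ?_, fun x hx => ?_⟩
  · rw [continuousOn_iff_continuous_domRestrict]
    exact (map_continuous f).congr fun z => by simp
  · simpa [hx] using congrFun hf ⟨x, hx⟩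

theorem loc {ι : Type} {l : Filter ι} {G g : ι → ℂ} {b : ℂ} (hG : Tendsto G l (𝓝 b))
    (h : ∀ᶠ x in l, exp (G x) = g x) : ∀ᶠ x in l, G x = b + log (g x / exp b) := by
  have := (continuous_im.tendsto _).comp (hG.sub_const b)
  rw [sub_self, zero_im] at this
  filter_upwards [h, this.eventually (Ioo_mem_nhds (neg_lt_zero.mpr Real.pi_pos) Real.pi_pos)]
    with x h1 h2
  rw [← h1, ← exp_sub, log_exp h2.1 h2.2.le, add_sub_cancel]

def KK : Set ℂ := closedBall 0 1 \ {-1}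

theorem KK_re {z : ℂ} (hz : z ∈ KK) : 0 < (1 + z).re := by
  have h1 := mem_closedBall_zero_iff.mp hz.1
  have h2 := (abs_le.mp (abs_re_le_norm z)).1
  have h3 := Complex.sq_norm z
  rw [normSq_apply] at h3
  rw [add_re, one_re]
  refine (show 0 ≤ 1 + z.re by linarith).lt_of_ne fun e => hz.2 (Complex.ext ?_ ?_)
  · simp only [neg_re, one_re]
    linarith
  · have : z.re = -1 := by linarith
    rw [this] at h3
    simp only [neg_im, one_im, neg_zero]
    nlinarith [norm_nonneg z]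

theorem KK_eq : KK = closedBall 0 1 ∩ {z | -1 < z.re} := by
  refine Subset.antisymm (fun z hz => ⟨hz.1, ?_⟩) fun z hz => ⟨hz.1, fun e => ?_⟩
  · have := KK_re hz
    rw [add_re, one_re] at this
    exact neg_lt_iff_pos_add'.mpr this
  · have := hz.2
    rw [mem_singleton_iff.mp e] at this
    simp at this

theorem KK_conv : Convex ℝ KK := KK_eq ▸ (convex_closedBall _ _).inter (convex_halfSpace_re_gt _)

theorem ball_KK : ball 0 1 ⊆ KK := fun z hz => ⟨ball_subset_closedBall hz, fun e => by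
  rw [mem_singleton_iff.mp e] at hz
  simp at hz⟩

theorem lg {t : ℝ} (ht : |t| < Real.pi) :
    0 < Real.cos (t / 2) ∧ 1 + ex t = exp (Real.log (2 * Real.cos (t / 2)) + (t / 2 : ℝ) * I) ∧
      log (1 + ex t) = Real.log (2 * Real.cos (t / 2)) + (t / 2 : ℝ) * I := by
  obtain ⟨h1, h2⟩ := abs_lt.mp ht
  have c := Real.cos_pos_of_mem_Ioo (x := t / 2) ⟨by linarith, by linarith⟩
  have e : 1 + ex t = exp (Real.log (2 * Real.cos (t / 2)) + (t / 2 : ℝ) * I) := by
    rw [exp_add, ← ofReal_exp, Real.exp_log (by linarith), ofReal_mul, ofReal_cos, ofReal_ofNat,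
      two_cos, add_mul, ← exp_add, ← exp_add, ex, add_comm]
    congr 1
    · congr 1
      push_cast
      ring
    · simp
  refine ⟨c, e, ?_⟩
  rw [e, log_exp] <;> simp <;> linarith

theorem ex_KK {t : ℝ} (ht : |t| < Real.pi) : ex t ∈ KK :=
  ⟨mem_closedBall_zero_iff.mpr (ex_norm t).le, fun e => exp_ne_zero _ (by
    rw [← (lg ht).2.1, mem_singleton_iff.mp e, add_neg_cancel])⟩

theorem KK_ex {z : ℂ} (hz : z ∈ KK) (h : ‖z‖ = 1) : |z.arg| < Real.pi ∧ ex z.arg = z := by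
  refine ⟨abs_lt.mpr ⟨neg_pi_lt_arg z, arg_lt_pi_iff.mpr ?_⟩,
    by simpa [h, ex] using norm_mul_exp_arg_mul_I z⟩
  by_contra hc
  push Not at hc
  have := abs_re_eq_norm.mpr hc.2
  have k := KK_re hz
  rw [add_re, one_re] at k
  rw [abs_of_neg hc.1] at this
  linarith

theorem pl {E : ℂ → ℂ} (hd : DifferentiableOn ℂ E (ball 0 1)) (hc : ContinuousOn E KK) {M C δ : ℝ}
    (M0 : 0 < M) (d0 : 0 < δ) (hb : ∀ ζ ∈ KK, ‖ζ‖ = 1 → ‖E ζ‖ ≤ M)
    (hC : ∀ z ∈ ball (-1 : ℂ) δ ∩ ball 0 1, ‖E z‖ ≤ C) {z : ℂ} (hz : z ∈ ball (0 : ℂ) 1) :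
    ‖E z‖ ≤ M := by
  have z0 : 0 < ‖1 + z‖ := (KK_re (ball_KK hz)).trans_le (re_le_norm _)
  have key : ∀ n : ℕ, ‖E z‖ ^ n * ‖1 + z‖ ≤ 2 * M ^ n := fun n => by
    have t : Tendsto (fun ρ : ℝ => C ^ n * ρ) (𝓝[>] 0) (𝓝 0) :=
      ((show Continuous fun ρ : ℝ => C ^ n * ρ by fun_prop).tendsto' 0 0 (by simp)).mono_left
        nhdsWithin_le_nhds
    obtain ⟨ρ, r1, r0, r2⟩ := ((t.eventually_lt_const (show 0 < 2 * M ^ n by positivity)).and
      (Ioo_mem_nhdsGT (lt_min d0 z0))).exists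
    have sb : closure (ball (0 : ℂ) 1 \ closedBall (-1) ρ) ⊆ closedBall 0 1 \ ball (-1) ρ :=
      closure_minimal (diff_subset_diff ball_subset_closedBall ball_subset_closedBall)
        (isClosed_closedBall.sdiff isOpen_ball)
    have sk : closedBall 0 1 \ ball (-1) ρ ⊆ KK :=
      diff_subset_diff_right (singleton_subset_iff.mpr (mem_ball_self r0))
    have := norm_le_of_forall_mem_frontier_norm_le (U := ball (0 : ℂ) 1 \ closedBall (-1) ρ)
      (isBounded_ball.subset diff_subset) (f := fun w => E w ^ n * (1 + w))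
      ⟨((hd.pow n).mul (by fun_prop)).mono diff_subset,
        ((hc.pow n).mul (by fun_prop)).mono (sb.trans sk)⟩ (C := 2 * M ^ n) (fun w hw => ?_)
      (subset_closure ⟨hz, fun h => by
        rw [mem_closedBall, dist_eq_norm, sub_neg_eq_add, add_comm] at h
        linarith [min_le_right δ ‖1 + z‖]⟩)
    · rwa [norm_mul, norm_pow] at this
    have w1 := sb hw.1
    rw [norm_mul, norm_pow]
    rcases (mem_closedBall_zero_iff.mp w1.1).eq_or_lt with h | h
    · rw [mul_comm]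
      exact mul_le_mul (by linarith [norm_add_le 1 w, norm_one (α := ℂ)])
        (pow_le_pow_left₀ (norm_nonneg _) (hb w (sk w1) h) n) (by positivity) zero_le_two
    · have w2 : w ∈ closedBall (-1 : ℂ) ρ := by
        by_contra e
        refine hw.2 ?_
        rw [(isOpen_ball.sdiff isClosed_closedBall).interior_eq]
        exact ⟨mem_ball_zero_iff.mpr h, e⟩
      have b := hC w ⟨closedBall_subset_ball (r2.trans_le (min_le_left _ _)) w2,
        mem_ball_zero_iff.mpr h⟩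
      rw [mem_closedBall, dist_eq_norm, sub_neg_eq_add, add_comm] at w2
      exact (mul_le_mul (pow_le_pow_left₀ (norm_nonneg _) b n) w2 (norm_nonneg _)
        (pow_nonneg ((norm_nonneg _).trans b) n)).trans r1.le
  by_contra h
  obtain ⟨n, hn⟩ := pow_unbounded_of_one_lt (2 / ‖1 + z‖) ((one_lt_div M0).mpr (not_le.mp h))
  rw [div_pow, div_lt_div_iff₀ z0 (pow_pos M0 n)] at hn
  linarith [key n]

theorem bdry {F : ℂ → ℂ} (hd : DifferentiableOn ℂ F (ball 0 1)) (hc : ContinuousOn F KK)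
    (hi : InjOn F (ball 0 1)) {ζ : ℂ} (hζ : ζ ∈ KK) (h1 : ‖ζ‖ = 1) : F ζ ∉ F '' ball 0 1 := by
  rintro ⟨a, ha, e⟩
  have an := hd.analyticOnNhd isOpen_ball
  have a1 := mem_ball_zero_iff.mp ha
  obtain ⟨r, r1, r2⟩ := exists_between a1
  have o := (an a ha).eventually_constant_or_nhds_le_map_nhds.resolve_left fun h => by
    obtain ⟨b, b1, b2, b3⟩ := ((h.and (isOpen_ball.eventually_mem ha)).filter_mono
      (nhdsWithin_le_nhds (s := {a}ᶜ)) |>.and self_mem_nhdsWithin).exists.imp fun b hb =>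
        (⟨hb.1.1, hb.1.2, hb.2⟩ : F b = F a ∧ b ∈ ball (0 : ℂ) 1 ∧ b ≠ a)
    exact b3 (hi b2 ha b1)
  have : NeBot (𝓝[ball 0 1] ζ) := mem_closure_iff_nhdsWithin_neBot.mp (by
    rw [closure_ball _ one_ne_zero]
    exact hζ.1)
  have t := ((hc ζ hζ).mono ball_KK).tendsto
  rw [← e] at t
  obtain ⟨z, ⟨⟨b, b1, b2⟩, z1⟩, z2⟩ := (((t.eventually (o (image_mem_map
    (isOpen_ball.mem_nhds (mem_ball_zero_iff.mpr r1))))).and self_mem_nhdsWithin).and
    (((continuous_norm.tendsto ζ).mono_left nhdsWithin_le_nhds).eventually_const_lt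
      (h1 ▸ r2 : r < ‖ζ‖))).exists
  rw [← hi (ball_subset_ball r2.le b1) z1 b2] at z2
  linarith [mem_ball_zero_iff.mp b1]

theorem tip {κ ε φ : ℝ} (hφ : |φ| < Real.pi) (h : κ + ε * Real.tan (φ / 2) < 0) :
    ∀ᶠ z in 𝓝[ball 0 1] (ex φ), -κ * Real.log ‖z‖ - ε * (2 * log (1 + z) - log z).im < 0 := by
  have k0 : ∀ a t : ℝ, 0 ≤ a → |t| < Real.pi → exp (-a + t * I) ∈ KK := fun a t a0 ht => by
    rcases a0.eq_or_lt with e | e
    · simpa [← e, ex] using ex_KK ht
    · refine ball_KK (mem_ball_zero_iff.mpr ?_)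
      rw [norm_exp]
      simpa using e
  have c : ContinuousAt (fun w : ℂ => κ + ε * ((exp w - 1) / (1 + exp w)).im) (φ * I) := by
    have : 1 + exp (φ * I) ≠ 0 := (lg hφ).2.1 ▸ exp_ne_zero _
    fun_prop (disch := exact this)
  have v : ((exp (φ * I) - 1) / (1 + exp (φ * I))).im = Real.tan (φ / 2) := by
    have c0 := (lg hφ).1
    have : (exp (φ * I) - 1) / (1 + exp (φ * I)) = Real.tan (φ / 2) * I := by
      have n : 1 + exp (φ * I) ≠ 0 := (lg hφ).2.1 ▸ exp_ne_zero _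
      have c1 : cos (φ / 2) ≠ 0 := by exact_mod_cast c0.ne'
      rw [div_eq_iff n, show (φ * I : ℂ) = φ / 2 * I + φ / 2 * I by ring, exp_add, exp_mul_I]
      push_cast
      rw [tan_eq_sin_div_cos]
      field_simp
      linear_combination (cos (φ / 2 : ℂ) + I * sin (φ / 2 : ℂ)) * cos_sq_add_sin_sq (φ / 2 : ℂ) -
        (sin (φ / 2 : ℂ) ^ 2 * cos (φ / 2 : ℂ) + I * sin (φ / 2 : ℂ) ^ 3) * I_mul_I
    rw [this]
    simp only [mul_im, ofReal_re, I_im, mul_one, ofReal_im, I_re, mul_zero, add_zero]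
  obtain ⟨d, d0, hd⟩ := Metric.eventually_nhds_iff.mp (c.tendsto.eventually_lt_const
    (u := 0) (by rwa [v]))
  have s : ex φ ∈ slitPlane := by
    have := KK_ex (ex_KK hφ) (ex_norm φ)
    exact mem_slitPlane_iff_arg.mpr ⟨(abs_lt.mp this.1).2.ne, exp_ne_zero _⟩
  have l : log (ex φ) = φ * I := by
    rw [ex, log_exp] <;> simp <;> linarith [(abs_lt.mp hφ).1, (abs_lt.mp hφ).2]
  have t := (continuousAt_clog s).tendsto
  rw [l] at t
  have t2 := ((continuous_im.tendsto _).comp t).abs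
  simp only [mul_im, ofReal_re, I_im, mul_one, ofReal_im, I_re, mul_zero, add_zero] at t2
  filter_upwards [self_mem_nhdsWithin, mem_nhdsWithin_of_mem_nhds (t.eventually (ball_mem_nhds _ d0)),
    mem_nhdsWithin_of_mem_nhds (t2.eventually_lt_const hφ),
    mem_nhdsWithin_of_mem_nhds (isOpen_ne.mem_nhds (exp_ne_zero (φ * I)))] with z z1 z2 z3 z0
  set a := -Real.log ‖z‖ with ha
  have a0 : 0 < a := neg_pos.mpr (Real.log_neg (norm_pos_iff.mpr z0) (mem_ball_zero_iff.mp z1))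
  have z4 : |z.arg| < Real.pi := by simpa [log_im] using z3
  have e : log z = -a + z.arg * I := by simp [ha, log]
  have m := strictAntiOn_of_deriv_neg (convex_Icc 0 a)
    (f := fun x : ℝ => κ * x - ε * (2 * log (1 + exp (-x + z.arg * I)) - (-x + z.arg * I)).im)
    (fun x hx => ?_) (fun x hx => ?_) (left_mem_Icc.mpr a0.le) (right_mem_Icc.mpr a0.le) a0
  · simp only [← e, exp_log z0, ofReal_zero, neg_zero, zero_add] at m
    rw [← ex, (lg z4).2.2] at m
    simp only [sub_im, mul_im, re_ofNat, add_im, ofReal_im, ofReal_re, I_im, I_re, im_ofNat] at m ⊢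
    linarith
  · have := KK_re (k0 x _ hx.1 z4)
    refine ContinuousAt.continuousWithinAt ?_
    have : ContinuousAt (fun x : ℝ => log (1 + exp (-x + z.arg * I))) x :=
      ContinuousAt.clog (by fun_prop) (Or.inl this)
    exact (continuousAt_const.mul continuousAt_id).sub (continuousAt_const.mul
      (continuous_im.continuousAt.comp ((continuousAt_const.mul this).sub (by fun_prop))))
  · rw [interior_Icc] at hx
    have p := KK_re (k0 x _ hx.1.le z4)
    have h0 : HasDerivAt (fun w : ℂ => -w + z.arg * I) (-1) x := (hasDerivAt_neg _).add_const _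
    have h1 := ((((h0.cexp.const_add 1).clog (Or.inl p)).const_mul 2).fun_sub h0).comp_ofReal
    have h2 := ((hasDerivAt_id x).const_mul κ).fun_sub
      ((imCLM.hasFDerivAt.comp_hasDerivAt x h1).const_mul ε)
    have b := hd (y := -x + z.arg * I) (by
      refine lt_of_le_of_lt ?_ (mem_ball.mp z2)
      rw [e, dist_eq_norm, dist_eq_norm, ← sq_le_sq₀ (norm_nonneg _) (norm_nonneg _),
        Complex.sq_norm, Complex.sq_norm, normSq_apply, normSq_apply]
      simp
      nlinarith [hx.1, hx.2])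
    refine (h2.deriv).trans_lt (lt_of_eq_of_lt ?_ b)
    have n : 1 + exp (-x + z.arg * I) ≠ 0 := fun e => by simp [e] at p
    rw [show (exp (-x + z.arg * I) - 1) / (1 + exp (-x + z.arg * I)) =
      -(2 * (exp (-x + z.arg * I) * -1 / (1 + exp (-x + z.arg * I))) - -1) by
        field_simp
        ring]
    simp only [imCLM_apply, neg_im]
    ring

theorem core {κ ε s φ : ℝ} {θ : ℝ → ℝ} (k0 : 0 ≤ κ) (e1 : |ε| = 1) (tc : Continuous θ)
    (tl : ∀ σ, s ≤ σ → κ * s - ε * θ s ≤ κ * σ - ε * θ σ) {F : ℂ → ℂ}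
    (hd : DifferentiableOn ℂ F (ball 0 1)) (hc : ContinuousOn F KK) (hi : InjOn F (ball 0 1))
    (F0 : F 0 = 0) (F1 : deriv F 0 = 1)
    (hΓ : ∀ w, w ∉ F '' ball 0 1 ↔ ∃ σ, s ≤ σ ∧ w = exp (σ + θ σ * I))
    (hinf : Tendsto (fun z => ‖F z‖) (𝓝[ball 0 1] (-1)) atTop) (hφ : |φ| < Real.pi)
    (h1 : F (ex φ) = exp (s + θ s * I))
    (h2 : ∀ ζ ∈ KK, ‖ζ‖ = 1 → F ζ = exp (s + θ s * I) → ζ = ex φ) :
    0 ≤ κ + ε * Real.tan (φ / 2) := by
  have m0 : (0 : ℂ) ∈ ball (0 : ℂ) 1 := mem_ball_self one_pos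
  have nb := isOpen_ball.mem_nhds m0
  have p0 := Real.pi_pos
  have bd : ∀ ζ ∈ KK, ‖ζ‖ = 1 → ∃ σ : ℝ, s ≤ σ ∧ F ζ = exp (σ + θ σ * I) := fun ζ hζ h =>
    (hΓ _).mp (bdry hd hc hi hζ h)
  have n0 : ∀ z ∈ KK, z ≠ 0 → F z ≠ 0 := fun z hz z0 => by
    rcases (mem_closedBall_zero_iff.mp hz.1).eq_or_lt with h | h
    · obtain ⟨σ, -, e⟩ := bd z hz h
      exact e ▸ exp_ne_zero _
    · exact fun e => z0 (hi (mem_ball_zero_iff.mpr h) m0 (e.trans F0.symm))
  have ds : ∀ z : ℂ, z ≠ 0 → dslope F 0 z = F z / z := fun z z0 => by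
    rw [dslope_of_ne _ z0, slope_def_field, F0, sub_zero, sub_zero]
  obtain ⟨G, Gc, hG⟩ := clog KK_conv (ball_KK m0) (g := dslope F 0)
    ((continuousOn_dslope (mem_of_superset nb ball_KK)).mpr ⟨hc, hd.differentiableAt nb⟩)
    fun z hz => by
      by_cases z0 : z = 0
      · simp [z0, F1]
      · exact ds z z0 ▸ div_ne_zero (n0 z hz z0) z0
  have Gd : DifferentiableOn ℂ G (ball 0 1) := fun z hz => by
    have o := isOpen_ball.mem_nhds hz
    have := loc (Gc.continuousAt (mem_of_superset o ball_KK)).tendsto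
      (mem_of_superset o fun x hx => hG x (ball_KK hx))
    refine (DifferentiableAt.congr_of_eventuallyEq ?_ this).differentiableWithinAt
    refine (((((differentiableOn_dslope nb).mpr hd).differentiableAt o).div_const _).clog
      ?_).const_add _
    rw [← hG z (ball_KK hz), div_self (exp_ne_zero _)]
    exact one_mem_slitPlane
  have eF : ∀ z ∈ KK, z ≠ 0 → ∀ l, exp l = z → exp (G z + l) = F z := fun z hz z0 l e => by
    rw [exp_add, hG z hz, ds z z0, e, div_mul_cancel₀ _ z0]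
  have Gr : ∀ z ∈ KK, z ≠ 0 → (G z).re = Real.log ‖F z‖ - Real.log ‖z‖ := fun z hz z0 => by
    rw [← eF z hz z0 _ (exp_log z0), norm_exp, Real.log_exp, add_re, log_re, add_sub_cancel_right]
  have ls : ∀ σ : ℝ, Real.log ‖exp (σ + θ σ * I)‖ = σ := fun σ => by simp [norm_exp]
  have lc : ContinuousOn (fun z : ℂ => log (1 + z)) KK := fun z hz =>
    (ContinuousAt.clog (by fun_prop) (Or.inl (KK_re hz))).continuousWithinAt
  set u : ℂ → ℝ := fun z => κ * (G z).re - ε * (G z + 2 * log (1 + z)).im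
  set E : ℂ → ℂ := fun z => exp (-((κ + ε * I) * G z + 2 * ε * I * log (1 + z)))
  have Eu : ∀ z, ‖E z‖ = Real.exp (-u z) := fun z => by
    simp only [E, u, norm_exp]
    congr 1
    simp
    ring
  have x0 : ∀ t, ex t ≠ 0 := fun t => exp_ne_zero _
  obtain ⟨j, hj⟩ : ∃ j : ℝ → ℝ, j = fun t => (G (ex t)).im + t - θ (Real.log ‖F (ex t)‖) := ⟨_, rfl⟩
  have mp : MapsTo ex (Ioo (-Real.pi) Real.pi) KK := fun t ht => ex_KK (abs_lt.mpr ht)
  have jc : ∀ t, |t| < Real.pi → j t = j φ := fun t ht =>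
    (convex_Ioo _ _).isPreconnected.constant_of_mapsTo (T := AddSubgroup.zmultiples (2 * Real.pi))
      (isDiscrete_iff_discreteTopology.mpr
        (inferInstanceAs (DiscreteTopology (AddSubgroup.zmultiples (2 * Real.pi)))))
      (hj ▸ ((continuous_im.comp_continuousOn (Gc.comp ex_cont.continuousOn mp)).add
        continuousOn_id).sub (tc.comp_continuousOn ((hc.comp ex_cont.continuousOn mp).norm.log
          fun t ht => norm_ne_zero_iff.mpr (n0 _ (mp ht) (x0 t)))))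
      (fun t ht => by
        obtain ⟨σ, -, e⟩ := bd _ (mp ht) (ex_norm t)
        obtain ⟨n, hn⟩ := exp_eq_exp_iff_exists_int.mp ((eF _ (mp ht) (x0 t) (t * I) rfl).trans e)
        refine ⟨n, ?_⟩
        have := congrArg im hn
        simp only [hj, e, ls]
        simp at this ⊢
        linarith) (abs_lt.mp ht) (abs_lt.mp hφ)
  have ub : ∀ t, |t| < Real.pi → u (ex t) = κ * Real.log ‖F (ex t)‖ -
      ε * θ (Real.log ‖F (ex t)‖) - ε * j φ := fun t ht => by
    rw [← jc t ht, hj]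
    simp only [u, Gr _ (ex_KK ht) (x0 t), ex_norm, Real.log_one, (lg ht).2.2]
    simp
    ring
  have u0 : u (ex φ) = κ * s - ε * θ s - ε * j φ := by rw [ub φ hφ, h1, ls]
  obtain ⟨δ, d0, hδ⟩ := Metric.mem_nhdsWithin_iff.mp (hinf.eventually_ge_atTop (Real.exp s))
  set V := ball (-1 : ℂ) (min δ 1) ∩ ball 0 1
  have V1 : ∀ z ∈ V, z ∈ KK ∧ z ≠ 0 ∧ -z ∈ slitPlane ∧ s ≤ Real.log ‖F z‖ := fun z hz => by
    have : ‖-z - 1‖ < 1 := by
      rw [← norm_neg, neg_sub, sub_neg_eq_add, add_comm, ← sub_neg_eq_add, ← dist_eq_norm]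
      exact hz.1.trans_le (min_le_right _ _)
    have sp : -z ∈ slitPlane := by simpa using mem_slitPlane_of_norm_lt_one this
    have := hδ ⟨ball_subset_ball (min_le_left _ _) hz.1, hz.2⟩
    exact ⟨ball_KK hz.2, neg_ne_zero.mp (slitPlane_ne_zero sp), sp,
      (Real.le_log_iff_exp_le ((Real.exp_pos s).trans_le this)).mpr this⟩
  obtain ⟨h, hh⟩ : ∃ h : ℂ → ℝ, h = fun z => (G z + log (-z)).im + Real.pi - θ (Real.log ‖F z‖) :=
    ⟨_, rfl⟩
  have hcn : ContinuousOn h V := hh ▸ ((continuous_im.comp_continuousOn ((Gc.mono fun z hz =>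
    (V1 z hz).1).add fun z hz => (ContinuousAt.clog (by fun_prop)
      (V1 z hz).2.2.1).continuousWithinAt)).add continuousOn_const).sub
    (tc.comp_continuousOn ((hc.mono fun z hz => (V1 z hz).1).norm.log fun z hz =>
      norm_ne_zero_iff.mpr (n0 z (V1 z hz).1 (V1 z hz).2.1)))
  have hb : ∀ a ∈ V, ∀ b ∈ V, h b ≤ h a + 2 * Real.pi := fun a ha b hb => by
    by_contra hl
    have c1 := Int.le_ceil (h a / (2 * Real.pi))
    have c2 := Int.ceil_lt_add_one (h a / (2 * Real.pi))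
    rw [div_le_iff₀ (by linarith)] at c1
    rw [div_add_one (by linarith), lt_div_iff₀ (by linarith)] at c2
    obtain ⟨z, hz, e⟩ := ((convex_ball _ _).inter (convex_ball _ _)).isPreconnected.intermediate_value
      ha hb hcn ⟨c1, by linarith⟩
    obtain ⟨z1, z0, z2, z3⟩ := V1 z hz
    refine (hΓ (F z)).mpr ⟨_, z3, ?_⟩ (mem_image_of_mem F hz.2)
    refine (eF z z1 z0 (log (-z) + Real.pi * I) (by
      rw [exp_add, exp_pi_mul_I, exp_log (neg_ne_zero.mpr z0)]
      ring)).symm.trans (exp_eq_exp_iff_exists_int.mpr ⟨⌈h a / (2 * Real.pi)⌉, Complex.ext ?_ ?_⟩)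
    · simp [Gr z z1 z0, log_re]
    · generalize ⌈h a / (2 * Real.pi)⌉ = k at e ⊢
      rw [hh] at e
      simp at e ⊢
      linarith
  have : NeBot (𝓝[ball (0 : ℂ) 1] (-1)) := mem_closure_iff_nhdsWithin_neBot.mp (by
    rw [closure_ball _ one_ne_zero]
    simp)
  obtain ⟨a, ha⟩ : V.Nonempty := Filter.nonempty_of_mem (f := 𝓝[ball (0 : ℂ) 1] (-1))
    (inter_mem (mem_nhdsWithin_of_mem_nhds (ball_mem_nhds _ (lt_min d0 one_pos))) self_mem_nhdsWithin)
  have mn : ∀ z ∈ ball (0 : ℂ) 1, u (ex φ) ≤ u z := fun z hz => by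
    have := pl (E := E) (M := Real.exp (-u (ex φ)))
      (C := Real.exp (-(κ * s - ε * θ s - (|h a| + 6 * Real.pi))))
      (((Gd.const_mul _).add (DifferentiableOn.const_mul (fun z hz => (DifferentiableAt.clog
        (by fun_prop) (Or.inl (KK_re (ball_KK hz)))).differentiableWithinAt) _)).neg.cexp)
      (((continuousOn_const.mul Gc).add (continuousOn_const.mul lc)).neg.cexp) (Real.exp_pos _)
      (lt_min d0 one_pos) (fun ζ hζ z1 => ?_) (fun w hw => ?_) hz
    · rwa [Eu, Real.exp_le_exp, neg_le_neg_iff] at this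
    · obtain ⟨σ, s1, e⟩ := bd ζ hζ z1
      obtain ⟨b1, b2⟩ := KK_ex hζ z1
      have := ub _ b1
      rw [b2, e, ls] at this
      rw [Eu, Real.exp_le_exp, u0, this]
      linarith [tl σ s1]
    · obtain ⟨z1, z0, z2, z3⟩ := V1 w hw
      have b1 := hb a ha w hw
      have b2 := hb w hw a ha
      have b3 := abs_le.mp (abs_arg_le_pi (-w))
      have b4 := abs_le.mp (abs_arg_le_pi (1 + w))
      have b5 : |(G w + 2 * log (1 + w)).im - θ (Real.log ‖F w‖)| ≤ |h a| + 6 * Real.pi := by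
        have : (G w + 2 * log (1 + w)).im - θ (Real.log ‖F w‖) =
            h w - Real.pi - (-w).arg + 2 * (1 + w).arg := by
          simp [hh, log_im]
          ring
        rw [this, abs_le]
        constructor <;> linarith [le_abs_self (h a), neg_abs_le (h a)]
      have b6 := le_abs_self (ε * ((G w + 2 * log (1 + w)).im - θ (Real.log ‖F w‖)))
      rw [abs_mul, e1, one_mul] at b6
      have b7 := mul_nonneg k0 (neg_nonneg.mpr (Real.log_nonpos (norm_nonneg w)
        (mem_closedBall_zero_iff.mp z1.1)))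
      rw [Eu, Real.exp_le_exp, neg_le_neg_iff]
      simp only [u, Gr w z1 z0]
      linarith [tl _ z3]
  have : ∀ n : ℕ, exp (s - (1 / (n + 1) : ℝ) + θ s * I) ∈ F '' ball 0 1 := fun n => by
    by_contra e
    obtain ⟨σ, s1, e⟩ := (hΓ _).mp e
    have := congrArg (fun w => Real.log ‖w‖) e
    simp only [ls, norm_exp, Real.log_exp, add_re, sub_re, ofReal_re, mul_re, I_re, mul_zero,
      ofReal_im, I_im, mul_one, sub_self, add_zero] at this
    linarith [Nat.one_div_pos_of_nat (α := ℝ) (n := n)]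
  choose z z1 z2 using this
  obtain ⟨η, η1, ψ, ψ1, t1⟩ := (isCompact_closedBall (0 : ℂ) 1).tendsto_subseq
    fun n => ball_subset_closedBall (z1 n)
  have t2 : Tendsto (z ∘ ψ) atTop (𝓝[ball 0 1] η) :=
    tendsto_nhdsWithin_iff.mpr ⟨t1, Eventually.of_forall fun n => z1 _⟩
  have t3 : Tendsto (fun n => (1 / ((ψ n : ℝ) + 1) : ℝ)) atTop (𝓝 0) :=
    tendsto_one_div_add_atTop_nhds_zero_nat.comp ψ1.tendsto_atTop
  have t4 : Tendsto (fun n => (s - (1 / ((ψ n : ℝ) + 1) : ℝ) + θ s * I : ℂ)) atTop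
      (𝓝 (s + θ s * I)) := by
    simpa using (((continuous_ofReal.tendsto _).comp t3).const_sub (s : ℂ)).add_const (θ s * I)
  have t5 : Tendsto (fun n => F (z (ψ n))) atTop (𝓝 (exp (s + θ s * I))) :=
    t4.cexp.congr fun n => (z2 _).symm
  have η2 : η ∈ KK := ⟨η1, fun e => by
    rw [mem_singleton_iff.mp e] at t2
    exact not_tendsto_atTop_of_tendsto_nhds t5.norm (hinf.comp t2)⟩
  have t6 := t2.mono_right (nhdsWithin_mono _ ball_KK)
  have η3 : F η = exp (s + θ s * I) := tendsto_nhds_unique ((hc η η2).tendsto.comp t6) t5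
  have η4 : η = ex φ := h2 η η2 ((mem_closedBall_zero_iff.mp η1).eq_or_lt.resolve_right fun l =>
    (hΓ _).mpr ⟨s, le_rfl, η3⟩ (mem_image_of_mem F (mem_ball_zero_iff.mpr l))) η3
  subst η4
  by_contra hn
  have sp : ex φ ∈ slitPlane :=
    mem_slitPlane_iff_arg.mpr ⟨(abs_lt.mp (KK_ex η2 (ex_norm φ)).1).2.ne, x0 φ⟩
  have l : log (ex φ) = φ * I := by
    rw [ex, log_exp] <;> simp <;> linarith [(abs_lt.mp hφ).1, (abs_lt.mp hφ).2]
  have t7 := ((Gc _ η2).tendsto.comp t6).add ((continuousAt_clog sp).tendsto.comp t1)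
  have nz := t1.eventually (isOpen_ne.mem_nhds (x0 φ))
  have q1 := loc (g := fun n => F (z (ψ n))) t7 (nz.mono fun n hn =>
    eF _ (ball_KK (z1 _)) hn _ (exp_log hn))
  obtain ⟨n, ⟨q2, q3⟩, q4⟩ := ((q1.and nz).and (t2.eventually (tip hφ (not_le.mp hn)))).exists
  have q5 := mn _ (z1 (ψ n))
  have pp := mul_nonneg k0 (Nat.one_div_pos_of_nat (α := ℝ) (n := ψ n)).le
  rw [eF _ η2 (x0 φ) _ (exp_log (x0 φ)), h1, z2, ← exp_sub, log_exp (by simp [p0])
    (by simp [p0.le]), l] at q2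
  have r1 := congrArg re q2
  have r2 := congrArg im q2
  simp only [u, (lg hφ).2.2, Function.comp, add_re, add_im, sub_re, sub_im, mul_re, mul_im, log_re,
    ofReal_re, ofReal_im, I_re, I_im, re_ofNat, im_ofNat] at r1 r2 q4 q5
  have r3 : (G (z (ψ n))).re = (G (ex φ)).re - 1 / (ψ n + 1) - Real.log ‖z (ψ n)‖ := by linarith
  have r4 : (G (z (ψ n))).im = (G (ex φ)).im + φ - (log (z (ψ n))).im := by linarith
  rw [r3, r4] at q5
  linarith

end Pool.Agent.H.MP_70d5b9_an
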