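import Pool.Agent.H.MP_70d5b9_an.A

set_option autoImplicit false
open Filter Topology Metric Set Complex
open Pool.Agent.H.MP_5011cf_an

namespace Pool.Agent.H.MP_70d5b9_an

theorem mono {ψ : ℝ → ℝ} (T : Finset ℝ) : ∀ a b : ℝ, a ≤ b → ContinuousOn ψ (Icc a b) →
    (∀ t ∈ Ioo a b, t ∉ T → ∃ d, 0 ≤ d ∧ HasDerivAt ψ d t) → ψ a ≤ ψ b := by
  classical
  induction T using Finset.induction_on with
  | empty =>
    intro a b h hc hd
    refine monotoneOn_of_deriv_nonneg (convex_Icc a b) hc (fun t ht => ?_) (fun t ht => ?_)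
      (left_mem_Icc.mpr h) (right_mem_Icc.mpr h) h <;>
      obtain ⟨d, d0, d1⟩ := hd t (interior_Icc (a := a) (b := b) ▸ ht) (by simp)
    · exact d1.differentiableAt.differentiableWithinAt
    · rwa [d1.deriv]
  | insert c T _ ih =>
    intro a b h hc hd
    by_cases e : c ∈ Ioo a b
    · exact (ih a c e.1.le (hc.mono (Icc_subset_Icc_right e.2.le)) fun t ht h =>
        hd t ⟨ht.1, ht.2.trans e.2⟩ (by simp [h, ht.2.ne])).trans
        (ih c b e.2.le (hc.mono (Icc_subset_Icc_left e.1.le)) fun t ht h =>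
          hd t ⟨e.1.trans ht.1, ht.2⟩ (by simp [h, ht.1.ne']))
    · exact ih a b h hc fun t ht h => hd t ht (by
        simp only [Finset.mem_insert, h, or_false]
        rintro rfl
        exact e ht)

theorem upper {β φ : ℝ} (b0 : 0 < β) (b1 : β < Real.pi / 2) {F : ℂ → ℂ} {γ : ℝ → ℂ} {T : Finset ℝ}
    (hd : DifferentiableOn ℂ F (ball 0 1)) (hc : ContinuousOn F KK) (hi : InjOn F (ball 0 1))
    (F0 : F 0 = 0) (F1 : deriv F 0 = 1) (gc : ContinuousOn γ (Ici 0))
    (gi : Tendsto (fun t => ‖γ t‖) atTop atTop)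
    (gd : ∀ t, 0 < t → t ∉ T → ∃ v, v ≠ 0 ∧ HasDerivAt γ v t ∧
      InnerProductGeometry.angle v (γ t) ≤ β)
    (hΓ : (F '' ball 0 1)ᶜ = γ '' Ici 0)
    (hinf : Tendsto (fun z => ‖F z‖) (𝓝[ball 0 1] (-1)) atTop) (hφ : |φ| < Real.pi)
    (h1 : F (ex φ) = γ 0) (h2 : ∀ ζ ∈ KK, ‖ζ‖ = 1 → F ζ = γ 0 → ζ = ex φ) : |φ| ≤ 2 * β := by
  have g0 : ∀ t ∈ Ici (0 : ℝ), γ t ≠ 0 := fun t ht e =>
    (hΓ ▸ mem_image_of_mem γ ht : γ t ∈ (F '' ball 0 1)ᶜ) ⟨0, mem_ball_self one_pos, F0.trans e.symm⟩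
  obtain ⟨l, lc, hl⟩ := clog (convex_Ici 0) self_mem_Ici gc g0
  set κ := Real.tan β
  have kp : 0 < κ := Real.tan_pos_of_pos_of_lt_pi_div_two b0 b1
  have k0 := kp.le
  have m : ∀ ε : ℝ, |ε| = 1 → ∀ a b, 0 ≤ a → a ≤ b →
      κ * (l a).re - ε * (l a).im ≤ κ * (l b).re - ε * (l b).im := fun ε e1 a b a0 h => by
    have c := lc.mono (show Icc a b ⊆ Ici 0 from fun t ht => a0.trans ht.1)
    refine mono (ψ := fun t => κ * (l t).re - ε * (l t).im) T a b h
      ((continuousOn_const.mul (continuous_re.comp_continuousOn c)).sub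
        (continuousOn_const.mul (continuous_im.comp_continuousOn c))) fun t ht hT => ?_
    have t0 := a0.trans_lt ht.1
    obtain ⟨v, v0, v1, v2⟩ := gd t t0 hT
    have o := Ici_mem_nhds t0
    have d : HasDerivAt l (v / γ t) t := by
      have := (((v1.div_const (exp (l t))).clog_real (by
        rw [← hl t t0.le, div_self (exp_ne_zero _)]
        exact one_mem_slitPlane)).const_add (l t)).congr_of_eventuallyEq
        (loc (lc.continuousAt o).tendsto (mem_of_superset o hl))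
      rwa [hl t t0.le, div_self (g0 t t0.le), div_one] at this
    refine ⟨_, ?_, ((reCLM.hasFDerivAt.comp_hasDerivAt t d).const_mul κ).fun_sub
      ((imCLM.hasFDerivAt.comp_hasDerivAt t d).const_mul ε)⟩
    rw [angle_eq_abs_arg v0 (g0 t t0.le)] at v2
    have q0 := div_ne_zero v0 (g0 t t0.le)
    generalize v / γ t = q at v2 q0
    have r0 : 0 < q.re := (abs_arg_lt_pi_div_two_iff.mp (v2.trans_lt b1)).resolve_right q0
    obtain ⟨c1, c2⟩ := abs_le.mp v2
    have s1 := Real.strictMonoOn_tan.monotoneOn (a := q.arg) (b := β) ⟨by linarith, by linarith⟩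
      ⟨by linarith, b1⟩ c2
    have s2 := Real.strictMonoOn_tan.monotoneOn (a := -β) (b := q.arg) ⟨by linarith, by linarith⟩
      ⟨by linarith, by linarith⟩ c1
    rw [tan_arg, div_le_iff₀ r0] at s1
    rw [tan_arg, Real.tan_neg, le_div_iff₀ r0] at s2
    have := le_abs_self (ε * q.im)
    rw [abs_mul, e1, one_mul] at this
    simp only [reCLM_apply, imCLM_apply]
    linarith [abs_le.mpr (⟨by linarith, s1⟩ : -(κ * q.re) ≤ q.im ∧ q.im ≤ κ * q.re)]
  have lip : ∀ a ∈ Ici (0 : ℝ), ∀ b ∈ Ici (0 : ℝ),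
      |(l a).im - (l b).im| ≤ κ * |(l a).re - (l b).re| := fun a ha b hb => by
    have c1 := mul_le_mul_of_nonneg_left (le_abs_self ((l a).re - (l b).re)) k0
    have c2 := mul_le_mul_of_nonneg_left (neg_abs_le ((l a).re - (l b).re)) k0
    rcases le_total a b with h | h
    · exact abs_le.mpr ⟨by linarith [m 1 abs_one a b ha h], by linarith [m (-1) (by simp) a b ha h]⟩
    · exact abs_le.mpr ⟨by linarith [m (-1) (by simp) b a hb h], by linarith [m 1 abs_one b a hb h]⟩
  have lr : ∀ t ∈ Ici (0 : ℝ), (l t).re = Real.log ‖γ t‖ := fun t ht => by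
    rw [← hl t ht, norm_exp, Real.log_exp]
  have sj : Ici (l 0).re ⊆ (fun t => (l t).re) '' Ici 0 :=
    isPreconnected_Ici.intermediate_value_Ici self_mem_Ici (l := atTop)
      (le_principal_iff.mpr (Ici_mem_atTop 0)) (continuous_re.comp_continuousOn lc)
      ((Real.tendsto_log_atTop.comp gi).congr' (mem_of_superset (Ici_mem_atTop 0) fun t ht =>
        (lr t ht).symm))
  choose! τ t1 t2 using fun σ (h : σ ∈ (fun t => (l t).re) '' Ici 0) => h
  simp only at t2
  obtain ⟨θ, h3, h4⟩ := (LipschitzOnWith.of_dist_le_mul (K := κ.toNNReal)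
    (f := fun σ => (l (τ σ)).im) (s := (fun t => (l t).re) '' Ici 0) fun a ha b hb => by
      have := lip _ (t1 a ha) _ (t1 b hb)
      rwa [t2 a ha, t2 b hb, ← Real.coe_toNNReal κ k0] at this).extend_real
  have h5 : ∀ t ∈ Ici (0 : ℝ), θ (l t).re = (l t).im := fun t ht => by
    have a := mem_image_of_mem (fun t => (l t).re) ht
    have := lip _ (t1 _ a) t ht
    rw [t2 _ a, sub_self, abs_zero, mul_zero, abs_nonpos_iff, sub_eq_zero] at this
    exact (h4 a).symm.trans this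
  have h6 : ∀ t ∈ Ici (0 : ℝ), exp ((l t).re + θ (l t).re * I) = γ t := fun t ht => by
    rw [h5 t ht, re_add_im, hl t ht]
  have key : ∀ ε : ℝ, |ε| = 1 → 0 ≤ κ + ε * Real.tan (φ / 2) := fun ε e1 =>
    core (s := (l 0).re) (θ := θ) k0 e1 h3.continuous (fun σ hσ => by
      obtain ⟨t, ht, rfl⟩ := sj hσ
      simp only
      rw [h5 0 self_mem_Ici, h5 t ht]
      exact m ε e1 0 t le_rfl ht) hd hc hi F0 F1 (fun w => by
      rw [← mem_compl_iff, hΓ]
      constructor
      · rintro ⟨t, ht, rfl⟩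
        exact ⟨_, le_of_mul_le_mul_left (by
          linarith [m 1 abs_one 0 t le_rfl ht, m (-1) (by simp) 0 t le_rfl ht]) kp, (h6 t ht).symm⟩
      · rintro ⟨σ, hσ, rfl⟩
        obtain ⟨t, ht, rfl⟩ := sj hσ
        exact ⟨t, ht, (h6 t ht).symm⟩) hinf hφ (h1.trans (h6 0 self_mem_Ici).symm)
      fun ζ hζ z1 e => h2 ζ hζ z1 (e.trans (h6 0 self_mem_Ici))
  obtain ⟨p1, p2⟩ := abs_lt.mp hφ
  have c1 := (Real.strictMonoOn_tan.le_iff_le (a := φ / 2) (b := β) ⟨by linarith, by linarith⟩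
    ⟨by linarith, b1⟩).mp (by linarith [key (-1) (by simp)])
  have c2 := (Real.strictMonoOn_tan.le_iff_le (a := -β) (b := φ / 2) ⟨by linarith, by linarith⟩
    ⟨by linarith, by linarith⟩).mp (by
      rw [Real.tan_neg]
      linarith [key 1 abs_one])
  exact abs_le.mpr ⟨by linarith, by linarith⟩

noncomputable def ee (β : ℝ) : ℂ := exp (β * I)

noncomputable def sp (β : ℝ) (z : ℂ) : ℂ := z * exp (-(2 * Real.cos β * ee β) * log (1 + z))

noncomputable def La (β : ℝ) (w : ℂ) : ℂ := w / ee β - 2 * Real.cos β * log (1 + exp w)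

noncomputable def mm (β t : ℝ) : ℝ :=
  t * Real.sin β - 2 * Real.cos β * Real.log (2 * Real.cos (t / 2))

theorem ee0 (β : ℝ) : ee β ≠ 0 := exp_ne_zero _

theorem ee_eq (β : ℝ) : ee β = Real.cos β + Real.sin β * I := by simp [ee, exp_mul_I]

theorem ee_inv (β : ℝ) : (ee β)⁻¹ = Real.cos β - Real.sin β * I := by
  rw [ee, ← exp_neg, ← neg_mul, exp_mul_I]
  simp [sub_eq_add_neg]

theorem sp_exp (β : ℝ) (w : ℂ) : sp β (exp w) = exp (ee β * La β w) := by
  rw [sp, La, ← exp_add, mul_sub, mul_div_cancel₀ _ (ee0 β)]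
  congr 1
  ring

theorem La_b (β : ℝ) {t : ℝ} (ht : |t| < Real.pi) : La β (t * I) = mm β t := by
  rw [La, ← ex, (lg ht).2.2, div_eq_mul_inv, ee_inv, mm]
  push_cast
  linear_combination (-t * sin β : ℂ) * I_mul_I

theorem La_per (β : ℝ) (w : ℂ) (n : ℤ) :
    La β (w + n * (2 * Real.pi * I)) = La β w + n * (2 * Real.pi * I) / ee β := by
  rw [La, La, exp_add, exp_int_mul_two_pi_mul_I, mul_one]
  ring

theorem La_ne {β : ℝ} (c0 : 0 < Real.cos β) {a b : ℂ} (ha : exp a ∈ KK) (hb : b.re < 0)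
    (hn : a ≠ b) : La β a ≠ La β b := by
  have a0 : a.re ≤ 0 := by
    have := mem_closedBall_zero_iff.mp ha.1
    rwa [norm_exp, Real.exp_le_one_iff] at this
  have n := sub_ne_zero.mpr hn.symm
  have k1 : ∀ r : ℝ, 0 < r → r ≤ 1 → ‖exp (a + r * (b - a))‖ < 1 := fun r r0 r1 => by
    rw [norm_exp, Real.exp_lt_one_iff]
    simp only [add_re, mul_re, ofReal_re, sub_re, ofReal_im, zero_mul, sub_zero]
    nlinarith
  have D : ∀ r ∈ Icc (0 : ℝ) 1, HasDerivAt (fun r : ℝ => (La β (a + r * (b - a)) / (b - a)).re)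
      ((ee β)⁻¹ - 2 * Real.cos β * (exp (a + r * (b - a)) / (1 + exp (a + r * (b - a))))).re r := by
    intro r hr
    have p : exp (a + r * (b - a)) ∈ KK := by
      rcases hr.1.eq_or_lt with e | e
      · simpa [← e] using ha
      · exact ball_KK (mem_ball_zero_iff.mpr (k1 r e hr.2))
    have h0 : HasDerivAt (fun w : ℂ => a + w * (b - a)) (b - a) r := by
      simpa using ((hasDerivAt_id (r : ℂ)).mul_const (b - a)).const_add a
    have h1 := (((h0.div_const (ee β)).fun_sub (((h0.cexp.const_add 1).clog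
      (Or.inl (KK_re p))).const_mul (2 * Real.cos β : ℂ))).div_const (b - a)).comp_ofReal
    refine (reCLM.hasFDerivAt.comp_hasDerivAt r h1).congr_deriv (congrArg re ?_)
    field_simp
  have := strictMonoOn_of_deriv_pos (convex_Icc 0 1)
    (fun r hr => (D r hr).continuousAt.continuousWithinAt) (fun r hr => by
      rw [interior_Icc] at hr
      rw [(D r (Ioo_subset_Icc_self hr)).deriv]
      have z1 := k1 r hr.1 hr.2.le
      generalize exp (a + r * (b - a)) = z at z1
      have p := KK_re (ball_KK (mem_ball_zero_iff.mpr z1))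
      have q : 0 < normSq (1 + z) := normSq_pos.mpr fun e => by simp [e] at p
      have : (z / (1 + z)).re < 1 / 2 := by
        rw [div_re, ← add_div, div_lt_div_iff₀ q two_pos, normSq_apply]
        have := Complex.sq_norm z
        rw [normSq_apply] at this
        simp only [add_re, one_re, add_im, one_im]
        nlinarith [norm_nonneg z]
      rw [sub_re, ee_inv, ← ofReal_ofNat, ← ofReal_mul, re_ofReal_mul]
      simp only [sub_re, ofReal_re, mul_re, I_re, mul_zero, ofReal_im, I_im, sub_self, sub_zero]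
      nlinarith) (left_mem_Icc.mpr zero_le_one) (right_mem_Icc.mpr zero_le_one) one_pos
  intro e
  simp [e] at this

theorem mm_der (β : ℝ) {t : ℝ} (ht : |t| < Real.pi) :
    HasDerivAt (mm β) (Real.sin β + Real.cos β * Real.tan (t / 2)) t := by
  have c := (lg ht).1
  refine (((hasDerivAt_id t).mul_const _).fun_sub ((((((hasDerivAt_id t).div_const 2).cos.const_mul
    2).log (by simpa using c.ne')).const_mul _))).congr_deriv ?_
  simp only [id, Real.tan_eq_sin_div_cos]
  field_simp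
  ring

theorem mm_min {β : ℝ} (b0 : 0 ≤ β) (b1 : β < Real.pi / 2) {t : ℝ} (ht : |t| < Real.pi)
    (hn : t ≠ -(2 * β)) : mm β (-(2 * β)) < mm β t := by
  have c0 := Real.cos_pos_of_mem_Ioo (x := β) ⟨by linarith, b1⟩
  obtain ⟨p1, p2⟩ := abs_lt.mp ht
  have e : ∀ x, Real.sin β + Real.cos β * Real.tan (x / 2) =
      Real.cos β * (Real.tan (x / 2) - Real.tan (-β)) := fun x => by
    rw [Real.tan_neg, Real.tan_eq_sin_div_cos β]
    field_simp
    ring
  rcases lt_or_gt_of_ne hn with h | h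
  · have q : ∀ x ∈ Icc t (-(2 * β)), |x| < Real.pi := fun x hx =>
      abs_lt.mpr ⟨by linarith [hx.1], by linarith [hx.2]⟩
    refine strictAntiOn_of_deriv_neg (convex_Icc t (-(2 * β)))
      (fun x hx => (mm_der β (q x hx)).continuousAt.continuousWithinAt) (fun x hx => ?_)
      (left_mem_Icc.mpr h.le) (right_mem_Icc.mpr h.le) h
    rw [interior_Icc] at hx
    rw [(mm_der β (q x (Ioo_subset_Icc_self hx))).deriv, e]
    exact mul_neg_of_pos_of_neg c0 (sub_neg.mpr (Real.strictMonoOn_tan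
      ⟨by linarith [hx.1], by linarith [hx.2]⟩ ⟨by linarith, by linarith⟩ (by linarith [hx.2])))
  · have q : ∀ x ∈ Icc (-(2 * β)) t, |x| < Real.pi := fun x hx =>
      abs_lt.mpr ⟨by linarith [hx.1], by linarith [hx.2]⟩
    refine strictMonoOn_of_deriv_pos (convex_Icc (-(2 * β)) t)
      (fun x hx => (mm_der β (q x hx)).continuousAt.continuousWithinAt) (fun x hx => ?_)
      (left_mem_Icc.mpr h.le) (right_mem_Icc.mpr h.le) h
    rw [interior_Icc] at hx
    rw [(mm_der β (q x (Ioo_subset_Icc_self hx))).deriv, e]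
    exact mul_pos c0 (sub_pos.mpr (Real.strictMonoOn_tan ⟨by linarith, by linarith⟩
      ⟨by linarith [hx.1], by linarith [hx.2]⟩ (by linarith [hx.1])))

theorem sp_cont (β : ℝ) : ContinuousOn (sp β) KK := continuousOn_id.mul (continuousOn_const.mul
  fun z hz => (ContinuousAt.clog (by fun_prop) (Or.inl (KK_re hz))).continuousWithinAt).cexp

theorem sp_der (β : ℝ) {z : ℂ} (hz : z ∈ KK) : HasDerivAt (sp β)
    (1 * exp (-(2 * Real.cos β * ee β) * log (1 + z)) + z * (exp (-(2 * Real.cos β * ee β) *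
      log (1 + z)) * (-(2 * Real.cos β * ee β) * (1 / (1 + z))))) z :=
  (hasDerivAt_id z).mul ((((hasDerivAt_id z).const_add 1).clog (Or.inl (KK_re hz))).const_mul _).cexp

theorem sp_inf {β : ℝ} (c0 : 0 < Real.cos β) :
    Tendsto (fun z => ‖sp β z‖) (𝓝[KK] (-1)) atTop := by
  have t1 : Tendsto (fun z : ℂ => ‖1 + z‖) (𝓝[KK] (-1)) (𝓝[>] 0) :=
    tendsto_nhdsWithin_iff.mpr ⟨((show Continuous fun z : ℂ => ‖1 + z‖ by fun_prop).tendsto' _ _
      (by simp)).mono_left nhdsWithin_le_nhds,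
      eventually_mem_nhdsWithin.mono fun z hz => (KK_re hz).trans_le (re_le_norm _)⟩
  have t2 := Real.tendsto_exp_atTop.comp (tendsto_atTop_add_const_right _ (-(2 * Real.pi))
    ((Real.tendsto_log_nhdsGT_zero.comp t1).const_mul_atBot_of_neg
      (show -(2 * Real.cos β ^ 2) < 0 by nlinarith)))
  have t3 : Tendsto (fun z : ℂ => ‖z‖) (𝓝[KK] (-1)) (𝓝 1) :=
    (continuous_norm.tendsto' _ _ (by simp)).mono_left nhdsWithin_le_nhds
  refine tendsto_atTop_mono (fun z => ?_) (t3.pos_mul_atTop one_pos t2)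
  rw [sp, norm_mul, norm_exp]
  refine mul_le_mul_of_nonneg_left (Real.exp_le_exp.mpr ?_) (norm_nonneg _)
  have b := abs_le.mp (show |Real.cos β * Real.sin β * (1 + z).arg| ≤ 1 * 1 * Real.pi by
    rw [abs_mul, abs_mul]
    gcongr
    exacts [Real.abs_cos_le_one β, Real.abs_sin_le_one β, abs_arg_le_pi _])
  simp only [ee_eq, Function.comp, mul_re, neg_re, neg_im, mul_im, add_re, add_im, ofReal_re,
    ofReal_im, I_re, I_im, re_ofNat, im_ofNat, log_re, log_im]
  linarith [b.1]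

theorem lneg {z : ℂ} (hz : z ∈ ball (0 : ℂ) 1) (z0 : z ≠ 0) (n : ℤ) :
    (log z + n * (2 * Real.pi * I)).re < 0 := by
  simpa [log_re] using Real.log_neg (norm_pos_iff.mpr z0) (mem_ball_zero_iff.mp hz)

theorem sp_eq {β : ℝ} (c0 : 0 < Real.cos β) {a : ℂ} (ha : exp a ∈ KK) {z : ℂ}
    (hz : z ∈ ball (0 : ℂ) 1) (e : sp β (exp a) = sp β z) : exp a = z := by
  have z0 : z ≠ 0 := by
    rintro rfl
    rw [sp_exp, sp, zero_mul] at e
    exact exp_ne_zero _ e
  rw [← exp_log z0, sp_exp, sp_exp] at e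
  obtain ⟨n, hn⟩ := exp_eq_exp_iff_exists_int.mp e
  have := (La_ne c0 ha (lneg hz z0 n)).mtr (mul_left_cancel₀ (ee0 β) (by
    rw [La_per, mul_add, mul_div_cancel₀ _ (ee0 β), hn]))
  rw [this, exp_add, exp_int_mul_two_pi_mul_I, mul_one, exp_log z0]

theorem sp_inj {β : ℝ} (c0 : 0 < Real.cos β) : InjOn (sp β) (ball 0 1) := fun a ha b hb e => by
  by_cases a0 : a = 0
  · by_contra h
    have b0 : b ≠ 0 := fun e => h (a0.trans e.symm)
    exact h (((sp_eq c0 ((exp_log b0).symm ▸ ball_KK hb) ha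
      ((exp_log b0).symm ▸ e.symm)).symm.trans (exp_log b0)))
  · exact (exp_log a0).symm.trans (sp_eq c0 ((exp_log a0).symm ▸ ball_KK ha) hb
      ((exp_log a0).symm ▸ e))

theorem sp_b (β : ℝ) {t : ℝ} (ht : |t| < Real.pi) : sp β (ex t) = exp (ee β * mm β t) := by
  rw [ex, sp_exp, La_b β ht]

theorem ne_norm (β x : ℝ) : ‖exp (ee β * x)‖ = Real.exp (Real.cos β * x) := by
  rw [norm_exp, ee_eq]
  simp [-ofReal_cos, -ofReal_sin]

theorem sp_img {β : ℝ} (b0 : 0 ≤ β) (b1 : β < Real.pi / 2) : (sp β '' ball 0 1)ᶜ =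
    (fun t : ℝ => exp (ee β * (mm β (-(2 * β)) + t : ℝ))) '' Ici 0 := by
  have c0 := Real.cos_pos_of_mem_Ioo (x := β) ⟨by linarith, b1⟩
  have t0 : |-(2 * β)| < Real.pi := abs_lt.mpr ⟨by linarith, by linarith⟩
  have fd : DifferentiableOn ℂ (sp β) (ball 0 1) := fun z hz =>
    (sp_der β (ball_KK hz)).differentiableAt.differentiableWithinAt
  refine Subset.antisymm (compl_subset_comm.mp fun w hw => ?_) ?_
  · have o : IsOpen (sp β '' ball 0 1) :=
      ((fd.analyticOnNhd isOpen_ball).is_constant_or_isOpen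
        (convex_ball 0 1).isPreconnected).resolve_left (fun ⟨c, hc⟩ => by
          have h1 : (0 : ℂ) ∈ ball (0 : ℂ) 1 := by simp
          have h2 : (1 / 2 : ℂ) ∈ ball (0 : ℂ) 1 := by norm_num
          simpa using sp_inj c0 h1 h2 ((hc _ h1).trans (hc _ h2).symm)) _ le_rfl isOpen_ball
    have pc : Continuous fun r : ℝ => w * exp (ee β * (-r : ℝ)) := by fun_prop
    have lim : Tendsto (fun r : ℝ => w * exp (ee β * (-r : ℝ))) atTop (𝓝 0) := by
      rw [tendsto_zero_iff_norm_tendsto_zero]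
      simp only [norm_mul, ne_norm]
      simpa using (Real.tendsto_exp_atBot.comp
        (tendsto_neg_atTop_atBot.const_mul_atBot c0)).const_mul ‖w‖
    obtain ⟨r, r0, r1⟩ := ((eventually_ge_atTop 0).and (lim.eventually
      (o.mem_nhds ⟨0, mem_ball_self one_pos, by simp [sp]⟩))).exists
    refine (isPreconnected_Ici.image _ pc.continuousOn).subset_of_closure_inter_subset o
      ⟨_, mem_image_of_mem _ r0, r1⟩ ?_ ⟨0, self_mem_Ici, by simp⟩
    rintro _ ⟨h, r, r0, rfl⟩
    obtain ⟨v, v1, v2⟩ := mem_closure_iff_seq_limit.mp h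
    choose z z1 z2 using v1
    obtain ⟨η, η1, ψ, ψ1, t1⟩ := (isCompact_closedBall (0 : ℂ) 1).tendsto_subseq
      fun n => ball_subset_closedBall (z1 n)
    have t2 : Tendsto (z ∘ ψ) atTop (𝓝[KK] η) :=
      tendsto_nhdsWithin_iff.mpr ⟨t1, Eventually.of_forall fun n => ball_KK (z1 _)⟩
    have t5 := (v2.comp ψ1.tendsto_atTop).congr fun n => (z2 (ψ n)).symm
    have η2 : η ∈ KK := ⟨η1, fun e => by
      rw [mem_singleton_iff.mp e] at t2
      exact not_tendsto_atTop_of_tendsto_nhds t5.norm ((sp_inf c0).comp t2)⟩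
    have η3 := tendsto_nhds_unique ((sp_cont β η η2).tendsto.comp t2) t5
    refine ⟨η, mem_ball_zero_iff.mpr ((mem_closedBall_zero_iff.mp η1).lt_of_ne fun l => hw ?_), η3⟩
    obtain ⟨a1, a2⟩ := KK_ex η2 l
    rw [← a2, sp_b β a1] at η3
    refine ⟨mm β η.arg - mm β (-(2 * β)) + r, mem_Ici.mpr (add_nonneg (sub_nonneg.mpr ?_) r0), ?_⟩
    · by_cases e : η.arg = -(2 * β)
      · rw [e]
      · exact (mm_min b0 b1 a1 e).le
    · refine mul_right_cancel₀ (exp_ne_zero (ee β * (-r : ℝ))) (Eq.trans ?_ η3)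
      rw [← exp_add]
      congr 1
      push_cast
      ring
  · rintro _ ⟨x, hx, rfl⟩
    have q : ∀ t ∈ Ico (-(2 * β)) Real.pi, |t| < Real.pi := fun t ht =>
      abs_lt.mpr ⟨by linarith [ht.1], ht.2⟩
    have e : ∀ᶠ t in 𝓝[<] Real.pi, t ∈ Ico (-(2 * β)) Real.pi := Ico_mem_nhdsLT (by linarith)
    have t1 : Tendsto ex (𝓝[<] Real.pi) (𝓝[KK] (-1)) := tendsto_nhdsWithin_iff.mpr
      ⟨(ex_cont.tendsto' _ _ (by simp [ex])).mono_left nhdsWithin_le_nhds,
        e.mono fun t ht => ex_KK (q t ht)⟩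
    have t2 : Tendsto (mm β) (𝓝[<] Real.pi) atTop :=
      (tendsto_const_mul_atTop_of_pos c0).mp (Real.tendsto_exp_comp_atTop.mp
        (((sp_inf c0).comp t1).congr' (e.mono fun t ht => by
          simp only [Function.comp, sp_b β (q t ht), ne_norm])))
    obtain ⟨t, ht, h⟩ := isPreconnected_Ico.intermediate_value_Ici (left_mem_Ico.mpr (by linarith))
      (le_principal_iff.mpr e) (fun t ht => (mm_der β (q t ht)).continuousAt.continuousWithinAt) t2
      (show mm β (-(2 * β)) ≤ mm β (-(2 * β)) + x from le_add_of_nonneg_right hx)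
    simp only [← h, ← sp_b β (q t ht)]
    exact bdry fd (sp_cont β) (sp_inj c0) (ex_KK (q t ht)) (ex_norm t)

end Pool.Agent.H.MP_70d5b9_an
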